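import Mathlib
import Pool.Agent.H50En.Defs

set_option autoImplicit false

namespace Pool.Agent.H41En

open Real Finset
open Pool.Agent.H50En

variable {V : Type} [DecidableEq V]

lemma CM_symm (z : Sym2 V → ℝ) (s : Finset V) : (CM z s).transpose = CM z s := by
  ext a b
  rw [Matrix.transpose_apply]
  cases a with
  | none => cases b <;> rfl
  | some i =>
    cases b with
    | none => rfl
    | some j =>
      simp only [CM, Matrix.of_apply]
      by_cases h : i = j
      · rw [if_pos h, if_pos h.symm]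
      · rw [if_neg h, if_neg (fun h' => h h'.symm), Sym2.eq_swap]

lemma inv_symm (z : Sym2 V → ℝ) (s : Finset V) (a b : Option s) :
    (CM z s)⁻¹ a b = (CM z s)⁻¹ b a := by
  have h := Matrix.transpose_nonsing_inv (CM z s)
  rw [CM_symm] at h
  have h2 := congrFun (congrFun h b) a
  rw [Matrix.transpose_apply] at h2
  exact h2

/-- B1 -/
theorem Q_symm (z : Sym2 V → ℝ) (s : Finset V) (k l : V) : Q z s k l = Q z s l k := by
  unfold Q
  by_cases h : k ∈ s ∧ l ∈ s
  · rw [dif_pos h, dif_pos ⟨h.2, h.1⟩, inv_symm]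
  · rw [dif_neg h, dif_neg (fun h' => h ⟨h'.2, h'.1⟩)]

lemma Q_eq {z : Sym2 V → ℝ} {s : Finset V} {k l : V} (hk : k ∈ s) (hl : l ∈ s) :
    Q z s k l = (CM z s)⁻¹ (some ⟨k, hk⟩) (some ⟨l, hl⟩) := by
  unfold Q
  rw [dif_pos ⟨hk, hl⟩]

/-- B1 -/
theorem Q_sum {z : Sym2 V → ℝ} {s : Finset V} (hD : (CM z s).det ≠ 0) {k : V} (hk : k ∈ s) :
    ∑ l ∈ s, Q z s k l = 0 := by
  have h1 : (CM z s)⁻¹ * CM z s = 1 := Matrix.nonsing_inv_mul _ (isUnit_iff_ne_zero.2 hD)
  have h2 := congrFun (congrFun h1 (some ⟨k, hk⟩)) none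
  rw [Matrix.mul_apply, Fintype.sum_option, Matrix.one_apply_ne (by simp)] at h2
  have e0 : CM z s none none = 0 := rfl
  have e1 : ∀ i : s, CM z s (some i) none = 1 := fun i => rfl
  simp only [e0, e1, mul_zero, mul_one, zero_add] at h2
  rw [← Finset.sum_coe_sort s (fun l => Q z s k l)]
  rw [← h2]
  refine Finset.sum_congr rfl fun i _ => ?_
  exact Q_eq hk i.2

/-- Jacobi's identity for a complementary 2 x 2 minor -/
lemma jacobi_gen {n : Type*} [Fintype n] [DecidableEq n] (A : Matrix n n ℝ) (hA : A.det ≠ 0)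
    (p : n → Prop) [DecidablePred p] :
    A.det * (A⁻¹.toBlock p p).det = (A.toBlock (fun i => ¬ p i) (fun i => ¬ p i)).det := by
  classical
  let e : {a // p a} ⊕ {a // ¬ p a} ≃ n := Equiv.sumCompl p
  have hmul : A.submatrix e e * A⁻¹.submatrix e e = 1 := by
    rw [Matrix.submatrix_mul_equiv, Matrix.mul_nonsing_inv _ (isUnit_iff_ne_zero.2 hA)]
    exact Matrix.submatrix_one_equiv e
  have hM : A.submatrix e e = Matrix.fromBlocks (A.toBlock p p) (A.toBlock p (fun i => ¬ p i))
      (A.toBlock (fun i => ¬ p i) p) (A.toBlock (fun i => ¬ p i) (fun i => ¬ p i)) := by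
    ext i j
    rcases i with i | i <;> rcases j with j | j <;> rfl
  have hN : A⁻¹.submatrix e e = Matrix.fromBlocks (A⁻¹.toBlock p p)
      (A⁻¹.toBlock p (fun i => ¬ p i))
      (A⁻¹.toBlock (fun i => ¬ p i) p) (A⁻¹.toBlock (fun i => ¬ p i) (fun i => ¬ p i)) := by
    ext i j
    rcases i with i | i <;> rcases j with j | j <;> rfl
  have h1 : (A.submatrix e e) * Matrix.fromBlocks (A⁻¹.toBlock p p) 0
      (A⁻¹.toBlock (fun i => ¬ p i) p) 1 =
      Matrix.fromBlocks 1 (A.toBlock p (fun i => ¬ p i)) 0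
        (A.toBlock (fun i => ¬ p i) (fun i => ¬ p i)) := by
    rw [hM, hN, Matrix.fromBlocks_multiply, ← Matrix.fromBlocks_one,
      Matrix.fromBlocks_inj] at hmul
    rw [hM, Matrix.fromBlocks_multiply, Matrix.fromBlocks_inj]
    refine ⟨hmul.1, ?_, hmul.2.2.1, ?_⟩
    · rw [Matrix.mul_zero, Matrix.mul_one, zero_add]
    · rw [Matrix.mul_zero, Matrix.mul_one, zero_add]
  have h2 := congrArg Matrix.det h1
  rw [Matrix.det_mul, Matrix.det_submatrix_equiv_self, Matrix.det_fromBlocks_zero₁₂,
    Matrix.det_fromBlocks_zero₂₁, Matrix.det_one, Matrix.det_one, mul_one, one_mul] at h2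
  exact h2

/-- B2: Jacobi's identity. -/
theorem jacobi {z : Sym2 V → ℝ} {T : Finset V} (hD : (CM z T).det ≠ 0) {k l : V} (hk : k ∈ T)
    (hl : l ∈ T) (hkl : k ≠ l) :
    |(CM z ((T.erase k).erase l)).det| = |(CM z T).det| * |Q z T k k * Q z T l l - Q z T k l ^ 2| := by
  classical
  let k' : T := ⟨k, hk⟩
  let l' : T := ⟨l, hl⟩
  have hkl' : k' ≠ l' := fun h => hkl (congrArg Subtype.val h)
  let p : Option T → Prop := fun a => a = some k' ∨ a = some l'
  have hg := jacobi_gen (CM z T) hD p
  -- the 2 x 2 minor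
  let f2 : Fin 2 → {a // p a} := ![⟨some k', Or.inl rfl⟩, ⟨some l', Or.inr rfl⟩]
  have f2b : Function.Bijective f2 := by
    constructor
    · intro i j hij
      fin_cases i <;> fin_cases j
      · rfl
      · exact absurd (Option.some_injective _ (congrArg Subtype.val hij)) hkl'
      · exact absurd (Option.some_injective _ (congrArg Subtype.val hij)).symm hkl'
      · rfl
    · rintro ⟨a, ha⟩
      rcases ha with rfl | rfl
      · exact ⟨0, rfl⟩
      · exact ⟨1, rfl⟩
  let e2 : Fin 2 ≃ {a // p a} := Equiv.ofBijective f2 f2b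
  have hdet2 : ((CM z T)⁻¹.toBlock p p).det = Q z T k k * Q z T l l - Q z T k l ^ 2 := by
    rw [← Matrix.det_submatrix_equiv_self e2, Matrix.det_fin_two]
    have a00 : ((CM z T)⁻¹.toBlock p p).submatrix e2 e2 0 0 = Q z T k k := (Q_eq hk hk).symm
    have a11 : ((CM z T)⁻¹.toBlock p p).submatrix e2 e2 1 1 = Q z T l l := (Q_eq hl hl).symm
    have a01 : ((CM z T)⁻¹.toBlock p p).submatrix e2 e2 0 1 = Q z T k l := (Q_eq hk hl).symm
    have a10 : ((CM z T)⁻¹.toBlock p p).submatrix e2 e2 1 0 = Q z T l k := (Q_eq hl hk).symm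
    rw [a00, a11, a01, a10, Q_symm z T l k]
    ring
  -- the complementary minor
  have hsub : ∀ i : ((T.erase k).erase l : Finset V), i.1 ∈ T := fun i =>
    Finset.mem_of_mem_erase (Finset.mem_of_mem_erase i.2)
  let g : Option ((T.erase k).erase l : Finset V) → {a : Option T // ¬ p a} := fun a =>
    match a with
    | none => ⟨none, by simp [p]⟩
    | some i => ⟨some ⟨i.1, hsub i⟩, by
        have h1 : i.1 ≠ l := Finset.ne_of_mem_erase i.2
        have h2 : i.1 ≠ k := Finset.ne_of_mem_erase (Finset.mem_of_mem_erase i.2)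
        rintro (h | h)
        · exact h2 (congrArg Subtype.val (Option.some_injective _ h))
        · exact h1 (congrArg Subtype.val (Option.some_injective _ h))⟩
  have gb : Function.Bijective g := by
    constructor
    · intro a b hab
      cases a with
      | none =>
        cases b with
        | none => rfl
        | some j =>
          have := congrArg Subtype.val hab
          simp [g] at this
      | some i =>
        cases b with
        | none =>
          have := congrArg Subtype.val hab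
          simp [g] at this
        | some j =>
          have := Option.some_injective _ (congrArg Subtype.val hab)
          have h3 : i.1 = j.1 := congrArg (fun t : T => t.1) this
          rw [Subtype.ext h3]
    · rintro ⟨a, ha⟩
      cases a with
      | none => exact ⟨none, rfl⟩
      | some i =>
        have h1 : i.1 ≠ k := fun h => ha (Or.inl (congrArg some (Subtype.ext h)))
        have h2 : i.1 ≠ l := fun h => ha (Or.inr (congrArg some (Subtype.ext h)))
        exact ⟨some ⟨i.1, Finset.mem_erase.2 ⟨h2, Finset.mem_erase.2 ⟨h1, i.2⟩⟩⟩, rfl⟩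
  let eg : Option ((T.erase k).erase l : Finset V) ≃ {a : Option T // ¬ p a} :=
    Equiv.ofBijective g gb
  have hsubm : CM z ((T.erase k).erase l) =
      ((CM z T).toBlock (fun i => ¬ p i) (fun i => ¬ p i)).submatrix eg eg := by
    ext a b
    cases a with
    | none => cases b <;> rfl
    | some i =>
      cases b with
      | none => rfl
      | some j =>
        change (if i = j then (0 : ℝ) else z s(i.1, j.1)) =
          (if (⟨i.1, hsub i⟩ : T) = ⟨j.1, hsub j⟩ then (0 : ℝ) else z s(i.1, j.1))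
        by_cases h : i = j
        · rw [if_pos h, if_pos (by rw [h])]
        · rw [if_neg h, if_neg (show ¬ (⟨i.1, hsub i⟩ : T) = ⟨j.1, hsub j⟩ from
            fun h' => h (Subtype.ext (congrArg (fun t : T => t.1) h')))]
  rw [hsubm, Matrix.det_submatrix_equiv_self, ← hg, hdet2, abs_mul]

/-- the direction of an edge -/
noncomputable def Dir (s : Finset V) (x y : s) : Matrix (Option s) (Option s) ℝ :=
  Matrix.single (some x) (some y) 1 + Matrix.single (some y) (some x) 1

lemma CM_update {z : Sym2 V → ℝ} {s : Finset V} {x y : V} (hx : x ∈ s) (hy : y ∈ s)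
    (hxy : x ≠ y) (u : ℝ) :
    CM (Function.update z s(x, y) u) s =
      CM z s + (u - z s(x, y)) • Dir s ⟨x, hx⟩ ⟨y, hy⟩ := by
  ext a b
  rw [Matrix.add_apply, Matrix.smul_apply, smul_eq_mul]
  cases a with
  | none =>
    cases b <;> simp [CM, Dir, Matrix.single_apply]
  | some i =>
    cases b with
    | none => simp [CM, Dir, Matrix.single_apply]
    | some j =>
      simp only [CM, Dir, Matrix.of_apply, Matrix.add_apply, Matrix.single_apply,
        Option.some.injEq]
      by_cases h : i = j
      · subst h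
        have h1 : ¬ ((⟨x, hx⟩ : s) = i ∧ (⟨y, hy⟩ : s) = i) := by
          rintro ⟨h1, h2⟩
          exact hxy (congrArg Subtype.val (h1.trans h2.symm))
        have h2 : ¬ ((⟨y, hy⟩ : s) = i ∧ (⟨x, hx⟩ : s) = i) := fun h => h1 ⟨h.2, h.1⟩
        rw [if_pos rfl, if_neg h1, if_neg h2]
        simp
      · rw [if_neg h, if_neg h]
        by_cases h1 : (⟨x, hx⟩ : s) = i ∧ (⟨y, hy⟩ : s) = j
        · have h2 : ¬ ((⟨y, hy⟩ : s) = i ∧ (⟨x, hx⟩ : s) = j) := by
            rintro ⟨h2, _⟩
            exact hxy (congrArg Subtype.val (h1.1.trans h2.symm))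
          rw [if_pos h1, if_neg h2]
          obtain ⟨rfl, rfl⟩ := h1
          simp
        · by_cases h2 : (⟨y, hy⟩ : s) = i ∧ (⟨x, hx⟩ : s) = j
          · rw [if_neg h1, if_pos h2]
            obtain ⟨rfl, rfl⟩ := h2
            simp only [Sym2.eq_swap (a := y) (b := x)]
            simp
          · rw [if_neg h1, if_neg h2]
            have h3 : s(i.1, j.1) ≠ s(x, y) := by
              intro h3
              rcases Sym2.eq_iff.1 h3 with ⟨h4, h5⟩ | ⟨h4, h5⟩
              · exact h1 ⟨Subtype.ext h4.symm, Subtype.ext h5.symm⟩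
              · exact h2 ⟨Subtype.ext h4.symm, Subtype.ext h5.symm⟩
            rw [Function.update_of_ne h3]
            simp

/-- derivative of a determinant along a line -/
lemma det_line {n : Type*} [Fintype n] [DecidableEq n] (A E : Matrix n n ℝ) (hA : A.det ≠ 0)
    (u0 : ℝ) : HasDerivAt (fun u : ℝ => (A + (u - u0) • E).det)
      (A.det * (A⁻¹ * E).trace) u0 := by
  have h1 : ∀ u : ℝ, (A + (u - u0) • E).det = A.det * (1 + (u - u0) • (A⁻¹ * E)).det := by
    intro u
    rw [← Matrix.det_mul, Matrix.mul_add, Matrix.mul_one, Matrix.mul_smul, ← Matrix.mul_assoc,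
      Matrix.mul_nonsing_inv _ (isUnit_iff_ne_zero.2 hA), Matrix.one_mul]
  set M := A⁻¹ * E
  obtain ⟨P, hP⟩ : ∃ P : Polynomial ℝ, ∀ r : ℝ,
      (1 + r • M).det = 1 + M.trace * r + P.eval r * r ^ 2 :=
    ⟨_, fun r => Matrix.det_one_add_smul r M⟩
  simp only [h1, hP]
  have h2 : HasDerivAt (fun u : ℝ => u - u0) 1 u0 := (hasDerivAt_id u0).sub_const u0
  have h3 : HasDerivAt (fun r : ℝ => P.eval r) (P.derivative.eval (u0 - u0))
      ((fun u : ℝ => u - u0) u0) := P.hasDerivAt _
  have h4 : HasDerivAt (fun u : ℝ => P.eval (u - u0)) (P.derivative.eval (u0 - u0) * 1) u0 :=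
    HasDerivAt.comp (h := fun u : ℝ => u - u0) (h₂ := fun r : ℝ => P.eval r) u0 h3 h2
  have h5 := (((hasDerivAt_const u0 (1 : ℝ)).add (h2.const_mul M.trace)).add
      (h4.mul (h2.pow 2))).const_mul A.det
  refine h5.congr_deriv ?_
  simp

lemma trace_Dir {z : Sym2 V → ℝ} {s : Finset V} {x y : V} (hx : x ∈ s) (hy : y ∈ s) :
    ((CM z s)⁻¹ * Dir s ⟨x, hx⟩ ⟨y, hy⟩).trace = 2 * Q z s x y := by
  unfold Dir
  rw [Matrix.mul_add, Matrix.trace_add, Matrix.trace_mul_single, Matrix.trace_mul_single]
  rw [Q_eq hx hy, inv_symm z s (some ⟨y, hy⟩)]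
  simp
  ring

/-- B3: derivative of the volume. -/
theorem vol_deriv {z : Sym2 V → ℝ} {s : Finset V} (hD : (CM z s).det ≠ 0) {x y : V} (hx : x ∈ s)
    (hy : y ∈ s) (hxy : x ≠ y) :
    HasDerivAt (fun u => vol (Function.update z s(x, y) u) s) (vol z s * Q z s x y) (z s(x, y)) := by
  have h1 := det_line (CM z s) (Dir s ⟨x, hx⟩ ⟨y, hy⟩) hD (z s(x, y))
  rw [trace_Dir hx hy] at h1
  unfold vol
  simp only [CM_update hx hy hxy]
  set D := (CM z s).det with hDdef
  set c : ℝ := 2 ^ (#s - 1) * ((#s - 1).factorial : ℝ) ^ 2 with hc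
  have hcpos : 0 < c := by positivity
  set f : ℝ → ℝ := fun u => (CM z s + (u - z s(x, y)) • Dir s ⟨x, hx⟩ ⟨y, hy⟩).det with hf
  have hf0 : f (z s(x, y)) = D := by simp [hf, hDdef]
  have hne : f (z s(x, y)) ≠ 0 := by rw [hf0]; exact hD
  have habs : HasDerivAt (fun u => |f u|) (|D| * (2 * Q z s x y)) (z s(x, y)) := by
    rcases lt_or_gt_of_ne hD with hneg | hpos
    · have h2 : HasDerivAt (fun u => - f u) (-(D * (2 * Q z s x y))) (z s(x, y)) := h1.neg
      have h3 : (fun u => |f u|) =ᶠ[nhds (z s(x, y))] fun u => - f u := by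
        have hcont := h1.continuousAt
        have : ∀ᶠ u in nhds (z s(x, y)), f u < 0 :=
          hcont.eventually_lt_const (by rw [hf0]; exact hneg)
        filter_upwards [this] with u hu
        exact abs_of_neg hu
      have h4 := h2.congr_of_eventuallyEq h3
      refine h4.congr_deriv ?_
      rw [abs_of_neg hneg]; ring
    · have h3 : (fun u => |f u|) =ᶠ[nhds (z s(x, y))] fun u => f u := by
        have hcont := h1.continuousAt
        have : ∀ᶠ u in nhds (z s(x, y)), 0 < f u :=
          hcont.eventually_const_lt (by rw [hf0]; exact hpos)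
        filter_upwards [this] with u hu
        exact abs_of_pos hu
      have h4 := h1.congr_of_eventuallyEq h3
      refine h4.congr_deriv ?_
      rw [abs_of_pos hpos]
  have hq : HasDerivAt (fun u => |f u| / c) (|D| * (2 * Q z s x y) / c) (z s(x, y)) :=
    habs.div_const c
  have hpos0 : 0 < |f (z s(x, y))| / c := div_pos (abs_pos.2 hne) hcpos
  have hs := hq.sqrt hpos0.ne'
  rw [hf0] at hs hpos0
  refine hs.congr_deriv ?_
  symm
  have h6 : √(|D| / c) ≠ 0 := (Real.sqrt_pos.2 hpos0).ne'
  have h7 : √(|D| / c) * √(|D| / c) = |D| / c := Real.mul_self_sqrt hpos0.le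
  rw [eq_div_iff (by positivity)]
  calc √(|D| / c) * Q z s x y * (2 * √(|D| / c))
      = (√(|D| / c) * √(|D| / c)) * (2 * Q z s x y) := by ring
    _ = |D| * (2 * Q z s x y) / c := by rw [h7]; ring

lemma det_diff {n : Type*} [Fintype n] [DecidableEq n] (B : ℝ → Matrix n n ℝ) (u0 : ℝ)
    (h : ∀ i j, DifferentiableAt ℝ (fun u => B u i j) u0) :
    DifferentiableAt ℝ (fun u => (B u).det) u0 := by
  simp only [Matrix.det_apply]
  refine DifferentiableAt.fun_sum fun σ _ => ?_
  refine DifferentiableAt.const_smul ?_ _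
  exact DifferentiableAt.fun_finsetProd fun i _ => h _ _

lemma inv_diff {n : Type*} [Fintype n] [DecidableEq n] (B : ℝ → Matrix n n ℝ) (u0 : ℝ)
    (h : ∀ i j, DifferentiableAt ℝ (fun u => B u i j) u0) (hd : (B u0).det ≠ 0) (i j : n) :
    DifferentiableAt ℝ (fun u => (B u)⁻¹ i j) u0 := by
  simp only [Matrix.inv_def, Matrix.smul_apply, Ring.inverse_eq_inv', Matrix.adjugate_apply,
    smul_eq_mul]
  refine DifferentiableAt.mul ?_ ?_
  · exact (det_diff B u0 h).inv hd
  · apply det_diff
    intro a b
    simp only [Matrix.updateRow_apply]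
    split_ifs
    · exact differentiableAt_const _
    · exact h _ _

lemma CM_diff (z : Sym2 V → ℝ) (T : Finset V) (e : Sym2 V) (i j : Option T) (u0 : ℝ) :
    DifferentiableAt ℝ (fun u => CM (Function.update z e u) T i j) u0 := by
  cases i with
  | none => cases j <;> exact differentiableAt_const _
  | some i =>
    cases j with
    | none => exact differentiableAt_const _
    | some j =>
      simp only [CM, Matrix.of_apply]
      by_cases h : i = j
      · simp only [if_pos h]
        exact differentiableAt_const _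
      · simp only [if_neg h]
        by_cases h2 : s(i.1, j.1) = e
        · simp only [h2, Function.update_self]
          exact differentiableAt_id
        · simp only [Function.update_of_ne h2]
          exact differentiableAt_const _

/-- B4: differentiability of the inverse. -/
theorem Q_deriv {z : Sym2 V → ℝ} {T : Finset V} (hD : (CM z T).det ≠ 0) (e : Sym2 V) :
    ∃ P' : V → V → ℝ, (∀ k ∈ T, ∀ l ∈ T,
      HasDerivAt (fun u => Q (Function.update z e u) T k l) (P' k l) (z e)) ∧
      ∀ k ∈ T, ∑ l ∈ T, P' k l = 0 := by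
  have hself : Function.update z e (z e) = z := Function.update_eq_self e z
  have hD' : (CM (Function.update z e (z e)) T).det ≠ 0 := by rw [hself]; exact hD
  have hdiff : ∀ k ∈ T, ∀ l ∈ T,
      DifferentiableAt ℝ (fun u => Q (Function.update z e u) T k l) (z e) := by
    intro k hk l hl
    simp only [Q_eq hk hl]
    exact inv_diff (fun u => CM (Function.update z e u) T) (z e)
      (fun i j => CM_diff z T e i j (z e)) hD' _ _
  refine ⟨fun k l => deriv (fun u => Q (Function.update z e u) T k l) (z e),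
    fun k hk l hl => (hdiff k hk l hl).hasDerivAt, ?_⟩
  intro k hk
  have hsum : HasDerivAt (fun u => ∑ l ∈ T, Q (Function.update z e u) T k l)
      (∑ l ∈ T, deriv (fun u => Q (Function.update z e u) T k l) (z e)) (z e) :=
    HasDerivAt.fun_sum fun l hl => (hdiff k hk l hl).hasDerivAt
  have hdet : DifferentiableAt ℝ (fun u => (CM (Function.update z e u) T).det) (z e) :=
    det_diff _ _ (fun i j => CM_diff z T e i j (z e))
  have hev : (fun u => ∑ l ∈ T, Q (Function.update z e u) T k l) =ᶠ[nhds (z e)] fun _ => 0 := by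
    have : ∀ᶠ u in nhds (z e), (CM (Function.update z e u) T).det ≠ 0 :=
      hdet.continuousAt.eventually_ne hD'
    filter_upwards [this] with u hu
    exact Q_sum hu hk
  have h0 : HasDerivAt (fun u => ∑ l ∈ T, Q (Function.update z e u) T k l) 0 (z e) :=
    (hasDerivAt_const (z e) (0 : ℝ)).congr_of_eventuallyEq hev
  exact hsum.unique h0

end Pool.Agent.H41En
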