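import Pool.Agent.H50En.Defs

/-!
The inverse of the Cayley–Menger matrix in terms of the gradients of the barycentric coordinates.
-/

namespace Pool.Agent.H41En

open Real Finset Pool.Agent.H50En Matrix

variable {V : Type} [DecidableEq V] {E : Type*} [NormedAddCommGroup E] [InnerProductSpace ℝ E]

theorem CM_symm (z : Sym2 V → ℝ) (s : Finset V) : (CM z s)ᵀ = CM z s := by
  ext a b
  rcases a with _ | i <;> rcases b with _ | j
  · simp [CM]
  · simp [CM]
  · simp [CM]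
  · by_cases h : i = j
    · subst h; simp [CM]
    · simp [CM, h, Ne.symm h, Sym2.eq_swap]

/-- the column -/
noncomputable def col (s : Finset V) (p g : V → E) (c : V → ℝ) (l : V) : Option s → ℝ
  | none => c l + (1 / 2) * ∑ k ∈ s, ‖p k‖ ^ 2 * inner ℝ (g k) (g l)
  | some k => -(1 / 2) * inner ℝ (g k.1) (g l)

theorem mul_col (z : Sym2 V → ℝ) (s : Finset V) (p g : V → E) (c : V → ℝ)
    (hd : ∀ k ∈ s, ∀ i ∈ s, c k + inner ℝ (g k) (p i) = if i = k then 1 else 0)
    (hg : ∑ k ∈ s, g k = 0) (hv : ∀ v : E, ∑ l ∈ s, inner ℝ (g l) v • p l = v)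
    (hz : ∀ i ∈ s, ∀ j ∈ s, i ≠ j → z s(i, j) = ‖p i - p j‖ ^ 2) (l : V) (hl : l ∈ s) :
    CM z s *ᵥ col s p g c l = Pi.single (some ⟨l, hl⟩) 1 := by
  ext a
  rw [Matrix.mulVec, dotProduct, Fintype.sum_option]
  rcases a with _ | i
  · have h0 : ∑ k ∈ s, inner ℝ (g k) (g l) = 0 := by
      rw [← sum_inner, hg, inner_zero_left]
    have h1 : ∑ k : s, (CM z s) none (some k) * col s p g c l (some k) =
        ∑ k ∈ s, -(1 / 2) * inner ℝ (g k) (g l) := by
      rw [← Finset.sum_coe_sort s (fun k => -(1 / 2) * inner ℝ (g k) (g l))]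
      refine Finset.sum_congr rfl fun k _ => ?_
      simp [CM, col]
    rw [h1, ← Finset.mul_sum, h0]
    simp [CM]
  · have h1 : ∑ k : s, (CM z s) (some i) (some k) * col s p g c l (some k) =
        ∑ k ∈ s, ‖p i.1 - p k‖ ^ 2 * (-(1 / 2) * inner ℝ (g k) (g l)) := by
      rw [← Finset.sum_coe_sort s (fun k => ‖p i.1 - p k‖ ^ 2 * (-(1 / 2) * inner ℝ (g k) (g l)))]
      refine Finset.sum_congr rfl fun k _ => ?_
      by_cases h : i = k
      · subst h
        simp [CM]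
      · have h' : i.1 ≠ k.1 := fun h2 => h (Subtype.ext h2)
        simp only [CM, Matrix.of_apply, h, if_false, col]
        rw [hz i.1 i.2 k.1 k.2 h']
    have h2 : ∀ k ∈ s, ‖p i.1 - p k‖ ^ 2 * (-(1 / 2) * inner ℝ (g k) (g l)) =
        -(1 / 2) * ‖p i.1‖ ^ 2 * inner ℝ (g k) (g l) +
          inner ℝ (p i.1) (inner ℝ (g k) (g l) • p k) -
          (1 / 2) * (‖p k‖ ^ 2 * inner ℝ (g k) (g l)) := by
      intro k _
      rw [norm_sub_sq_real, inner_smul_right]
      ring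
    have h0 : ∑ k ∈ s, inner ℝ (g k) (g l) = 0 := by
      rw [← sum_inner, hg, inner_zero_left]
    rw [h1, Finset.sum_congr rfl h2, Finset.sum_sub_distrib, Finset.sum_add_distrib,
      ← Finset.mul_sum, h0, ← inner_sum, hv, ← Finset.mul_sum]
    have h3 := hd l hl i.1 i.2
    have h4 : (CM z s) (some i) none = 1 := by simp [CM]
    rw [h4]
    have h5 : inner ℝ (p i.1) (g l) = inner ℝ (g l) (p i.1) := real_inner_comm _ _
    rw [h5]
    have h6 : (Pi.single (some (⟨l, hl⟩ : s)) (1 : ℝ) : Option s → ℝ) (some i) =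
        if i.1 = l then 1 else 0 := by
      rw [Pi.single_apply]
      by_cases h : i.1 = l
      · have : (some i : Option s) = some ⟨l, hl⟩ := by
          congr 1; exact Subtype.ext h
        rw [if_pos this, if_pos h]
      · have : (some i : Option s) ≠ some ⟨l, hl⟩ := by
          intro h2
          apply h
          have := Option.some_injective _ h2
          rw [this]
        rw [if_neg this, if_neg h]
    rw [h6, ← h3]
    simp only [col]
    ring

theorem det_ne (z : Sym2 V → ℝ) (s : Finset V) (hs : s.Nonempty) (p g : V → E) (c : V → ℝ)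
    (hd : ∀ k ∈ s, ∀ i ∈ s, c k + inner ℝ (g k) (p i) = if i = k then 1 else 0)
    (hg : ∑ k ∈ s, g k = 0) (hv : ∀ v : E, ∑ l ∈ s, inner ℝ (g l) v • p l = v)
    (hz : ∀ i ∈ s, ∀ j ∈ s, i ≠ j → z s(i, j) = ‖p i - p j‖ ^ 2) :
    (CM z s).det ≠ 0 := by
  intro h
  obtain ⟨x, hx0, hx⟩ := Matrix.exists_mulVec_eq_zero_iff.mpr h
  have h1 : ∀ l : s, x (some l) = 0 := by
    intro l
    have h2 := mul_col z s p g c hd hg hv hz l.1 l.2
    have h3 : (CM z s *ᵥ col s p g c l.1) ⬝ᵥ x = 0 := by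
      rw [← Matrix.vecMul_transpose, CM_symm, ← Matrix.dotProduct_mulVec, hx, dotProduct_zero]
    rw [h2, single_dotProduct, one_mul] at h3
    exact h3
  apply hx0
  ext a
  rcases a with _ | l
  · obtain ⟨i, hi⟩ := hs
    have h2 := congrFun hx (some ⟨i, hi⟩)
    rw [Matrix.mulVec, dotProduct, Fintype.sum_option] at h2
    have h3 : ∑ k : s, (CM z s) (some ⟨i, hi⟩) (some k) * x (some k) = 0 :=
      Finset.sum_eq_zero fun k _ => by rw [h1 k, mul_zero]
    rw [h3, add_zero] at h2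
    have h4 : (CM z s) (some ⟨i, hi⟩) none = 1 := by simp [CM]
    rw [h4, one_mul] at h2
    exact h2
  · exact h1 l

theorem Q_gram (z : Sym2 V → ℝ) (s : Finset V) (hs : s.Nonempty) (p g : V → E) (c : V → ℝ)
    (hd : ∀ k ∈ s, ∀ i ∈ s, c k + inner ℝ (g k) (p i) = if i = k then 1 else 0)
    (hg : ∑ k ∈ s, g k = 0) (hv : ∀ v : E, ∑ l ∈ s, inner ℝ (g l) v • p l = v)
    (hz : ∀ i ∈ s, ∀ j ∈ s, i ≠ j → z s(i, j) = ‖p i - p j‖ ^ 2) :
    (CM z s).det ≠ 0 ∧
      ∀ k ∈ s, ∀ l ∈ s, Q z s k l = -(1 / 2) * inner ℝ (g k) (g l) := by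
  have hdet := det_ne z s hs p g c hd hg hv hz
  refine ⟨hdet, fun k hk l hl => ?_⟩
  have h2 := mul_col z s p g c hd hg hv hz l hl
  have h3 : (CM z s)⁻¹ *ᵥ (CM z s *ᵥ col s p g c l) = col s p g c l := by
    rw [Matrix.mulVec_mulVec, Matrix.nonsing_inv_mul _ (isUnit_iff_ne_zero.mpr hdet),
      Matrix.one_mulVec]
  rw [h2] at h3
  have h4 := congrFun h3 (some ⟨k, hk⟩)
  rw [Matrix.mulVec_single_one] at h4
  rw [Q, dif_pos ⟨hk, hl⟩]
  exact h4

end Pool.Agent.H41En
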